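import Pool.Agent.Results.MP_e3c312_co.CuspSymmetry

/-!
Transfer of the starting result `Pool.Agent.Results.MP_e3c312_co.CuspSymmetry` to the form of the
frozen statement S12060.
-/

set_option autoImplicit false
set_option maxHeartbeats 4000000

namespace Pool.Agent.U288.Cusp

open Pool.Agent.Results.MP_e3c312_co.CuspSymmetry Topology

noncomputable section

/-- all placements modulo isometries -/
abbrev QQ : Type := Quot (fun q q' : Fin 7 → EuclideanSpace ℝ (Fin 3) =>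
  ∃ T : EuclideanSpace ℝ (Fin 3) ≃ᵢ EuclideanSpace ℝ (Fin 3), ∀ i, T (q i) = q' i)

/-- the class of a placement -/
def mk7 (q : Fin 7 → E 3) : QQ := Quot.mk _ q

theorem mk7_cont : Continuous mk7 := continuous_quot_mk

/-- the invariant -/
def invF (q : Fin 7 → E 3) : ℝ := dist (q 2) (q 6) ^ 2 - dist (q 1) (q 6) ^ 2

theorem invF_congr (q q' : Fin 7 → E 3) (h : ∃ T : E 3 ≃ᵢ E 3, ∀ i, T (q i) = q' i) :
    invF q = invF q' := by
  obtain ⟨T, hT⟩ := h
  unfold invF
  rw [← hT 1, ← hT 2, ← hT 6, T.dist_eq, T.dist_eq]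

theorem invF_cont : Continuous invF := by
  unfold invF
  fun_prop

/-- the invariant on the quotient -/
def invQ : QQ → ℝ := Quot.lift invF invF_congr

theorem invQ_cont : Continuous invQ := continuous_quot_lift _ invF_cont

theorem invF_std {x : ℝ} (hx : x ∈ Dom) : invF (std x) = 4 * fh x := inv_std hx

/-- the local conditions -/
def NearF (q : Fin 7 → E 3) : Prop :=
  0 < dist (q 1) (q 2) ∧ dist (q 1) (q 2) ^ 2 < 8 ∧
    |dist (q 3) (q 4) ^ 2 - 25| < 12 / 100 ∧ dist (q 3) (q 5) ^ 2 < 5661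

theorem nearF_congr (q q' : Fin 7 → E 3) (h : ∃ T : E 3 ≃ᵢ E 3, ∀ i, T (q i) = q' i) :
    NearF q = NearF q' := by
  obtain ⟨T, hT⟩ := h
  unfold NearF
  rw [← hT 1, ← hT 2, ← hT 3, ← hT 4, ← hT 5, T.dist_eq, T.dist_eq, T.dist_eq]

theorem nearF_isOpen : IsOpen {q : Fin 7 → E 3 | NearF q} := by
  have c12 : Continuous fun q : Fin 7 → E 3 => dist (q 1) (q 2) := by fun_prop
  have c34 : Continuous fun q : Fin 7 → E 3 => dist (q 3) (q 4) := by fun_prop
  have c35 : Continuous fun q : Fin 7 → E 3 => dist (q 3) (q 5) := by fun_prop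
  refine (isOpen_lt continuous_const c12).inter ((isOpen_lt (c12.pow 2) continuous_const).inter
    ((isOpen_lt ((c34.pow 2).sub continuous_const).abs continuous_const).inter
      (isOpen_lt (c35.pow 2) continuous_const)))

/-- the near classes -/
def OO : Set QQ := {x | Quot.lift NearF nearF_congr x}

theorem OO_isOpen : IsOpen OO := by
  refine isQuotientMap_quot_mk.isOpen_preimage.1 ?_
  exact nearF_isOpen

theorem mem_OO (q : Fin 7 → E 3) : mk7 q ∈ OO ↔ NearF q := Iff.rfl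

theorem nearF_std {x : ℝ} (hx : x ∈ Dom) : NearF (std x) := by
  have hr := rel_std hx
  have hX := dom_X hx
  have hX0 := sq_nonneg x
  obtain ⟨h12, h34, h35, _, _, _, _⟩ := hr.nonedges
  change dist (std x 1) (std x 2) ^ 2 = _ at h12
  change dist (std x 3) (std x 4) ^ 2 = _ at h34
  change dist (std x 3) (std x 5) ^ 2 = _ at h35
  have hz := hr.z0
  refine ⟨?_, ?_, ?_, ?_⟩
  · have : dist (std x 1) (std x 2) ≠ 0 := by
      intro h
      rw [h] at h12
      have : 0 < fz (x ^ 2) ^ 2 := by positivity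
      norm_num at h12
      linarith
    exact lt_of_le_of_ne dist_nonneg this.symm
  · rw [h12]
    have h1 := hr.hA
    have h2 : 0 < fs (x ^ 2) := by
      have h3 := hr.hs
      have h4 := hr.P0
      by_contra hneg
      push Not at hneg
      nlinarith
    nlinarith
  · rw [h34, abs_lt]
    constructor <;> linarith
  · rw [h35]; linarith

/-- the realizations -/
def CC : Set QQ := {x : Quot (fun q q' : Fin 7 → EuclideanSpace ℝ (Fin 3) =>
    ∃ T : EuclideanSpace ℝ (Fin 3) ≃ᵢ EuclideanSpace ℝ (Fin 3), ∀ i, T (q i) = q' i) |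
    ∃ q : Fin 7 → EuclideanSpace ℝ (Fin 3),
      Quot.mk (fun q q' : Fin 7 → EuclideanSpace ℝ (Fin 3) =>
        ∃ T : EuclideanSpace ℝ (Fin 3) ≃ᵢ EuclideanSpace ℝ (Fin 3), ∀ i, T (q i) = q' i) q = x ∧
      ∀ i j : Fin 7, G7.Adj i j → dist (q i) (q j) = dist (p7 i) (p7 j)}

theorem par_dom (y : Set.Ioo (0 : ℝ) 1) : (2 * (y : ℝ) - 1) / 10 ∈ Dom := by
  obtain ⟨y, h1, h2⟩ := y
  constructor <;> simp only <;> linarith

/-- the curve -/
def crv (y : Set.Ioo (0 : ℝ) 1) : QQ := mk7 (std ((2 * (y : ℝ) - 1) / 10))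

theorem crv_cont : Continuous crv := by
  unfold crv
  refine mk7_cont.comp ?_
  refine cont_std.comp_continuous (by fun_prop) ?_
  exact fun y => par_dom y

theorem invQ_crv (y : Set.Ioo (0 : ℝ) 1) : invQ (crv y) = 4 * fh ((2 * (y : ℝ) - 1) / 10) :=
  invF_std (par_dom y)

theorem crv_isEmbedding : IsEmbedding crv := by
  refine IsEmbedding.of_comp crv_cont invQ_cont ?_
  have hc : Continuous (invQ ∘ crv) := invQ_cont.comp crv_cont
  have hm : StrictMono (invQ ∘ crv) := by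
    intro y y' h
    simp only [Function.comp, invQ_crv]
    have h' : (2 * (y : ℝ) - 1) / 10 < (2 * (y' : ℝ) - 1) / 10 := by
      have : (y : ℝ) < y' := h
      linarith
    have := fh_strictMono (par_dom y) (par_dom y') h'
    linarith
  refine hm.isEmbedding_of_ordConnected ?_
  have : PreconnectedSpace (Set.Ioo (0 : ℝ) 1) :=
    Subtype.preconnectedSpace isPreconnected_Ioo
  exact (isPreconnected_range hc).ordConnected

theorem range_crv : Set.range crv = OO ∩ CC := by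
  ext x
  constructor
  · rintro ⟨y, rfl⟩
    refine ⟨nearF_std (par_dom y), _, rfl, ?_⟩
    exact std_mem (par_dom y)
  · rintro ⟨hO, q, rfl, hq⟩
    obtain ⟨h1, h2, h3, h4⟩ : NearF q := hO
    obtain ⟨T, x, hx, hT⟩ := local_unique q hq h1 h2 h3 h4
    have hx' : (10 * x + 1) / 2 ∈ Set.Ioo (0 : ℝ) 1 := by
      obtain ⟨a, b⟩ := hx
      constructor <;> linarith
    refine ⟨⟨(10 * x + 1) / 2, hx'⟩, ?_⟩
    symm
    refine Quot.sound ⟨T, fun i => ?_⟩
    rw [hT i]
    show std x i = std ((2 * ((10 * x + 1) / 2) - 1) / 10) i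
    congr 2
    ring

/-- the chart -/
def hh : ↥(OO ∩ CC) ≃ₜ ↥(Set.Ioo (0 : ℝ) 1) :=
  (Homeomorph.setCongr range_crv.symm).trans crv_isEmbedding.toHomeomorph.symm

theorem hh_symm (y : Set.Ioo (0 : ℝ) 1) : (hh.symm y).1 = crv y := rfl

/-- the motion -/
def mot (t : ℝ) : Fin 7 → E 3 := std (t / 20)

theorem mot_dom {t : ℝ} (ht : t ∈ Set.Icc (0 : ℝ) 1) : t / 20 ∈ Dom := by
  obtain ⟨h0, h1⟩ := ht
  constructor <;> linarith

theorem mot_cont : ContinuousOn mot (Set.Icc 0 1) := by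
  unfold mot
  refine cont_std.comp (by fun_prop) ?_
  exact fun t ht => mot_dom ht

/-- the group of order two -/
def Gm : Subgroup (EuclideanSpace ℝ (Fin 3) ≃ᵢ EuclideanSpace ℝ (Fin 3)) where
  carrier := {g | g = 1 ∨ g = refl3}
  one_mem' := Or.inl rfl
  mul_mem' := by
    rintro a b (rfl | rfl) (rfl | rfl)
    · left; simp
    · right; simp
    · right; simp
    · left; exact refl3_mul
  inv_mem' := by
    rintro a (rfl | rfl)
    · left; simp
    · right; exact inv_eq_of_mul_eq_one_left refl3_mul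

instance : Finite Gm := by
  have : Finite ({1, refl3} : Set (EuclideanSpace ℝ (Fin 3) ≃ᵢ EuclideanSpace ℝ (Fin 3))) :=
    Set.toFinite _
  exact this

/-- the reflection as an element of the group -/
def rg : Gm := ⟨refl3, Or.inr rfl⟩

theorem gm_cases (g : Gm) : g = 1 ∨ g = rg := by
  obtain ⟨g, hg⟩ := g
  rcases hg with h | h
  · left; exact Subtype.ext h
  · right; exact Subtype.ext h

theorem rg_mul : rg * rg = 1 := Subtype.ext refl3_mul

theorem rg_ne : rg ≠ 1 := fun h => refl3_ne (congrArg Subtype.val h)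

open Classical in
/-- the action on the vertices -/
def th : Gm →* Equiv.Perm (Fin 7) :=
  MonoidHom.mk' (fun g => if g = 1 then 1 else Equiv.swap 1 2) (by
    intro g h
    rcases gm_cases g with rfl | rfl <;> rcases gm_cases h with rfl | rfl
    · simp
    · simp
    · simp
    · rw [rg_mul, if_pos rfl, if_neg rg_ne, Equiv.swap_mul_self])

theorem th_rg : th rg = Equiv.swap 1 2 := by
  simp [th, rg_ne]

theorem th_adj (g : Gm) (u v : Fin 7) : G7.Adj u v ↔ G7.Adj (th g u) (th g v) := by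
  rcases gm_cases g with rfl | rfl
  · rw [map_one]; rfl
  · rw [th_rg]
    revert u v
    decide

theorem th_symm (g : Gm) (i : Fin 7) :
    (g : EuclideanSpace ℝ (Fin 3) ≃ᵢ EuclideanSpace ℝ (Fin 3)) (p7 i) = p7 (th g i) := by
  rcases gm_cases g with rfl | rfl
  · rw [map_one]; rfl
  · rw [th_rg]
    have := p7_symm rG i
    rw [theta_rG] at this
    exact this

theorem std_dist_mono' {x y : ℝ} (h0 : 0 ≤ x) (hxy : x ≤ y) (hx : x ∈ Dom) (hy : y ∈ Dom)
    (i j : Fin 7) : dist (std x i) (std x j) ≤ dist (std y i) (std y j) :=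
  std_dist_mono h0 hxy hx hy i j

theorem no_symm (T : EuclideanSpace ℝ (Fin 3) ≃ᵢ EuclideanSpace ℝ (Fin 3))
    (h : ∀ i : Fin 7, (rg : EuclideanSpace ℝ (Fin 3) ≃ᵢ EuclideanSpace ℝ (Fin 3)) (T (mot 1 i)) =
      T (mot 1 (th rg i))) : False := by
  have hd1 : (1 : ℝ) / 20 ∈ Dom := mot_dom ⟨zero_le_one, le_rfl⟩
  have e6 := h 6
  have e1 := h 1
  rw [th_rg] at e6 e1
  rw [show (Equiv.swap (1 : Fin 7) 2) 6 = 6 by decide] at e6
  rw [show (Equiv.swap (1 : Fin 7) 2) 1 = 2 by decide] at e1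
  have e6' : refl3 (T (mot 1 6)) = T (mot 1 6) := e6
  have e1' : refl3 (T (mot 1 1)) = T (mot 1 2) := e1
  have hd : dist (mot 1 2) (mot 1 6) = dist (mot 1 1) (mot 1 6) := by
    calc dist (mot 1 2) (mot 1 6)
        = dist (T (mot 1 2)) (T (mot 1 6)) := (T.dist_eq _ _).symm
      _ = dist (refl3 (T (mot 1 1))) (refl3 (T (mot 1 6))) := by rw [e1', e6']
      _ = dist (T (mot 1 1)) (T (mot 1 6)) := refl3.dist_eq _ _
      _ = dist (mot 1 1) (mot 1 6) := T.dist_eq _ _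
  have h2 : invF (mot 1) = 4 * fh (1 / 20) := invF_std hd1
  have h3 : invF (mot 1) = 0 := by
    unfold invF; rw [hd, sub_self]
  have h5 : fh 0 = 0 := by simp [fh, fm]
  have h6 := fh_lt (x := 0) (y := 1 / 20) le_rfl (by norm_num) zero_dom hd1
  linarith

theorem moves : ∃ t ∈ Set.Icc (0:ℝ) 1, ∃ i j : Fin 7,
    dist (mot t i) (mot t j) ≠ dist (p7 i) (p7 j) := by
  refine ⟨1, ⟨zero_le_one, le_rfl⟩, 3, 4, ?_⟩
  obtain ⟨_, h1, _⟩ := (rel_std (mot_dom (t := 1) ⟨zero_le_one, le_rfl⟩)).nonedges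
  obtain ⟨_, h2, _⟩ := rel0.nonedges
  change dist (mot 1 3) (mot 1 4) ^ 2 = _ at h1
  change dist (p7 3) (p7 4) ^ 2 = _ at h2
  intro h
  rw [h, h2] at h1
  norm_num at h1

theorem mot_inj : Set.InjOn (fun t => Quot.mk (fun q q' : Fin 7 → EuclideanSpace ℝ (Fin 3) =>
    ∃ T : EuclideanSpace ℝ (Fin 3) ≃ᵢ EuclideanSpace ℝ (Fin 3), ∀ i, T (q i) = q' i) (mot t))
    (Set.Icc (0:ℝ) 1) := by
  intro t ht t' ht' h
  have h1 : invQ (mk7 (mot t)) = invQ (mk7 (mot t')) := congrArg invQ h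
  have h2 : invF (mot t) = invF (mot t') := h1
  have e1 : invF (mot t) = 4 * fh (t / 20) := invF_std (mot_dom ht)
  have e2 : invF (mot t') = 4 * fh (t' / 20) := invF_std (mot_dom ht')
  have h3 : fh (t / 20) = fh (t' / 20) := by linarith
  have h4 := fh_strictMono.injOn (mot_dom ht) (mot_dom ht') h3
  linarith

theorem chart_ok : ∃ a : Set.Ioo (0:ℝ) 1,
    (hh.symm a).1 = Quot.mk (fun q q' : Fin 7 → EuclideanSpace ℝ (Fin 3) =>
      ∃ T : EuclideanSpace ℝ (Fin 3) ≃ᵢ EuclideanSpace ℝ (Fin 3), ∀ i, T (q i) = q' i) p7 ∧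
    ((∀ t ∈ Set.Ioc (0:ℝ) 1, ∃ b : Set.Ioo (0:ℝ) 1,
        (hh.symm b).1 = Quot.mk (fun q q' : Fin 7 → EuclideanSpace ℝ (Fin 3) =>
          ∃ T : EuclideanSpace ℝ (Fin 3) ≃ᵢ EuclideanSpace ℝ (Fin 3), ∀ i, T (q i) = q' i) (mot t) ∧
        (a : ℝ) < (b : ℝ)) ∨
     (∀ t ∈ Set.Ioc (0:ℝ) 1, ∃ b : Set.Ioo (0:ℝ) 1,
        (hh.symm b).1 = Quot.mk (fun q q' : Fin 7 → EuclideanSpace ℝ (Fin 3) =>
          ∃ T : EuclideanSpace ℝ (Fin 3) ≃ᵢ EuclideanSpace ℝ (Fin 3), ∀ i, T (q i) = q' i) (mot t) ∧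
        (b : ℝ) < (a : ℝ))) := by
  refine ⟨⟨1 / 2, by constructor <;> norm_num⟩, ?_, Or.inl ?_⟩
  · rw [hh_symm]
    show mk7 (std ((2 * (1 / 2) - 1) / 10)) = mk7 p7
    rw [show ((2 * (1 / 2) - 1) / 10 : ℝ) = 0 by norm_num, std_zero]
  · intro t ht
    obtain ⟨h0, h1⟩ := ht
    refine ⟨⟨1 / 2 + t / 4, by constructor <;> linarith⟩, ?_, ?_⟩
    · rw [hh_symm]
      show mk7 (std ((2 * (1 / 2 + t / 4) - 1) / 10)) = mk7 (std (t / 20))
      congr 2
      ring
    · show (1 / 2 : ℝ) < 1 / 2 + t / 4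
      linarith

end

end Pool.Agent.U288.Cusp
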